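import Pool.Agent.W169.AF.Stm2
import Pool.Agent.W683.AF.Mv1

/-! AF-MV1w: mean square of `L M - 1`, wide version (adapted from the file of helper683). -/

set_option autoImplicit false

namespace Pool.Agent.W240.AF

open Finset
open Pool.Agent.W169.AF
open Pool.Agent.H24R2.DZ (bb mo cc yy SMo ph)
open Pool.Agent.W683.AF (FS_mono FS_lin FS_one FS_sieve al SX_sub al_term)

/-- AF-MV1w -/
theorem mv1w (hAPX : S_APXw) (hMo : SMo) : S_MV1w := by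
  intro θ hθ hθ'
  obtain ⟨C0, hC0, hA⟩ := hAPX
  obtain ⟨C1, hC1, hM⟩ := hMo θ hθ (by linarith)
  refine ⟨2 * (60 * C1) + 2 * (4 * C0 ^ 2), 3, by positivity, by norm_num, ?_⟩
  intro Q hQ s hs1 hs2 hs3
  have hQ3 : 3 ≤ Q := by exact_mod_cast hQ
  have hQ1 : (1 : ℝ) < Q := by linarith
  have hQ0 : (0 : ℝ) < Q := by linarith
  set L : ℝ := Real.log Q with hL
  have hL1 : 1 ≤ L := by
    rw [hL, Real.le_log_iff_exp_le hQ0]
    have := Real.exp_one_lt_d9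
    linarith
  set E : ℝ := Real.exp (-(θ * (s.re - 1 / 2) * L)) with hE
  have hE0 : 0 < E := Real.exp_pos _
  -- the length
  have hN1 : 1 ≤ NQ Q := by
    unfold NQ
    rw [Nat.one_le_floor_iff]
    exact Real.one_le_rpow hQ1.le (by norm_num)
  have hN2 : ((NQ Q : ℕ) : ℝ) ≤ (Q : ℝ) ^ 2 := by
    have h1 : ((NQ Q : ℕ) : ℝ) ≤ (Q : ℝ) ^ (3 / 2 : ℝ) := by
      unfold NQ
      exact Nat.floor_le (by positivity)
    refine h1.trans ?_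
    rw [← Real.rpow_natCast]
    exact Real.rpow_le_rpow_of_exponent_le hQ1.le (by norm_num)
  -- first part
  have hfirst : FS Q (fun q χ => ‖SX θ Q q χ s 0 - 1‖ ^ 2) ≤ 60 * C1 * (Q : ℝ) ^ 2 * E := by
    have h1 : FS Q (fun q χ => ‖SX θ Q q χ s 0 - 1‖ ^ 2) =
        FS Q (fun q χ => ‖∑ n ∈ Icc 1 (NQ Q), al θ Q s n * χ (n : ZMod q)‖ ^ 2) := by
      unfold FS
      refine sum_congr rfl fun q _ => sum_congr rfl fun χ _ => ?_
      show ‖SX θ Q q χ s 0 - 1‖ ^ 2 = ‖∑ n ∈ Icc 1 (NQ Q), al θ Q s n * χ (n : ZMod q)‖ ^ 2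
      rw [SX_sub θ Q q hN1 χ s]
    rw [h1]
    refine (FS_sieve Q (NQ Q) (al θ Q s)).trans ?_
    have h2 : ∑ n ∈ Icc 1 (NQ Q), ‖al θ Q s n‖ ^ 2 ≤ 5 * E * C1 := by
      calc _ ≤ ∑ n ∈ Icc 1 (NQ Q), (5 * E) *
            ((n : ℝ) ^ (-(1 + 1 / L)) * ‖cc (bb θ L 0) n‖ ^ 2) := by
            refine sum_le_sum fun n hn => ?_
            rw [mem_Icc] at hn
            exact al_term θ s.re L Q hθ hQ3 hL s rfl hs1 n hn.1 hn.2
        _ = (5 * E) * ∑ n ∈ Icc 1 (NQ Q),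
            ((n : ℝ) ^ (-(1 + 1 / L)) * ‖cc (bb θ L 0) n‖ ^ 2) := by rw [mul_sum]
        _ ≤ (5 * E) * C1 := by
            apply mul_le_mul_of_nonneg_left _ (by positivity)
            have := (hM L 0 hL1).1 (NQ Q)
            simpa using this
    have h3 : 0 ≤ 5 * E * C1 := by positivity
    calc _ ≤ 6 * (NQ Q + (Q : ℝ) ^ 2) * (5 * E * C1) :=
          mul_le_mul_of_nonneg_left h2 (by positivity)
      _ ≤ 6 * ((Q : ℝ) ^ 2 + (Q : ℝ) ^ 2) * (5 * E * C1) := by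
          apply mul_le_mul_of_nonneg_right _ h3
          linarith
      _ = _ := by ring
  -- second part
  have hpoint : ∀ q ∈ Icc 2 Q, ∀ χ ∈ PC q, ‖LF q χ s * MX θ Q q χ s - 1‖ ^ 2 ≤
      2 * ‖SX θ Q q χ s 0 - 1‖ ^ 2 + (2 * (4 * C0 ^ 2 * E)) * 1 := by
    intro q hq χ hχ
    rw [mem_Icc] at hq
    have h1 := hA θ hθ hθ' Q q hq.1 hq.2 χ hχ s 0 hs1 (by linarith) (by simp)
    rw [add_zero] at h1
    have h2 : C0 * (1 + ‖s‖) * (Q : ℝ) ^ (-(1 / 6) : ℝ) ≤ 2 * C0 * (Q : ℝ) ^ (-(7 / 60) : ℝ) := by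
      have h3 : 1 + ‖s‖ ≤ 2 * (Q : ℝ) ^ (1 / 20 : ℝ) := by
        have : 1 ≤ (Q : ℝ) ^ (1 / 20 : ℝ) := Real.one_le_rpow hQ1.le (by norm_num)
        linarith
      calc C0 * (1 + ‖s‖) * (Q : ℝ) ^ (-(1 / 6) : ℝ)
          ≤ C0 * (2 * (Q : ℝ) ^ (1 / 20 : ℝ)) * (Q : ℝ) ^ (-(1 / 6) : ℝ) := by
            apply mul_le_mul_of_nonneg_right _ (by positivity)
            exact mul_le_mul_of_nonneg_left h3 hC0.le
        _ = 2 * C0 * ((Q : ℝ) ^ (1 / 20 : ℝ) * (Q : ℝ) ^ (-(1 / 6) : ℝ)) := by ring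
        _ = _ := by
            rw [← Real.rpow_add hQ0]
            norm_num
    have h4 : ((Q : ℝ) ^ (-(7 / 60) : ℝ)) ^ 2 ≤ E := by
      rw [← Real.rpow_natCast, ← Real.rpow_mul hQ0.le, Real.rpow_def_of_pos hQ0, hE, ← hL]
      apply Real.exp_le_exp.2
      have h5 : θ * (s.re - 1 / 2) ≤ (1 / 200) * (13 / 2) :=
        mul_le_mul hθ' (by linarith) (by linarith) (by norm_num)
      have h6 : θ * (s.re - 1 / 2) * L ≤ (1 / 200) * (13 / 2) * L :=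
        mul_le_mul_of_nonneg_right h5 (by linarith)
      push_cast
      linarith
    have h7 : ‖LF q χ s * MX θ Q q χ s - SX θ Q q χ s 0‖ ^ 2 ≤ 4 * C0 ^ 2 * E := by
      calc _ ≤ (2 * C0 * (Q : ℝ) ^ (-(7 / 60) : ℝ)) ^ 2 :=
            pow_le_pow_left₀ (norm_nonneg _) (h1.trans h2) 2
        _ = 4 * C0 ^ 2 * ((Q : ℝ) ^ (-(7 / 60) : ℝ)) ^ 2 := by ring
        _ ≤ _ := mul_le_mul_of_nonneg_left h4 (by positivity)
    have h8 : ‖LF q χ s * MX θ Q q χ s - 1‖ ≤ ‖SX θ Q q χ s 0 - 1‖ +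
        ‖LF q χ s * MX θ Q q χ s - SX θ Q q χ s 0‖ := by
      have : LF q χ s * MX θ Q q χ s - 1 = (SX θ Q q χ s 0 - 1) +
          (LF q χ s * MX θ Q q χ s - SX θ Q q χ s 0) := by ring
      rw [this]
      exact norm_add_le _ _
    have h9 : ‖LF q χ s * MX θ Q q χ s - 1‖ ^ 2 ≤ (‖SX θ Q q χ s 0 - 1‖ +
        ‖LF q χ s * MX θ Q q χ s - SX θ Q q χ s 0‖) ^ 2 :=
      pow_le_pow_left₀ (norm_nonneg _) h8 2
    nlinarith [sq_nonneg (‖SX θ Q q χ s 0 - 1‖ - ‖LF q χ s * MX θ Q q χ s - SX θ Q q χ s 0‖)]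
  have h10 := FS_mono hpoint
  rw [FS_lin Q (fun q χ => ‖SX θ Q q χ s 0 - 1‖ ^ 2) (fun _ _ => 1) 2 (2 * (4 * C0 ^ 2 * E))] at h10
  have h11 := FS_one Q
  refine h10.trans ?_
  calc _ ≤ 2 * (60 * C1 * (Q : ℝ) ^ 2 * E) + (2 * (4 * C0 ^ 2 * E)) * (Q : ℝ) ^ 2 :=
        add_le_add (mul_le_mul_of_nonneg_left hfirst (by norm_num))
          (mul_le_mul_of_nonneg_left h11 (by positivity))
    _ = _ := by ring

end Pool.Agent.W240.AF
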